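import Mathlib
import Pool.Agent.Helper20K9.DiffCount

/-!
The Fermat-Catalan equation with signature `(p, r, p)`, `x ^ p + y ^ r = z ^ p`, all exponents free: the
base `y` of the power with the other exponent lies in a set with a power saving.

For every `η > 0` at most `C N ^ (5/6 + η)` numbers `y ≤ N` satisfy `x ^ p + y ^ r = z ^ p` for some coprime
positive integers `x`, `z` and some primes `p ≥ 3`, `r ≥ 5`. The bases `x`, `z` are not bounded in terms of
`N`, nor are the exponents.  (For `r = 2`, `p ≥ 5` and for `r = 3` there are no solutions by theorems of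
Darmon and Merel, so all other cases of the signature with `2/p + 1/r ≤ 1` are covered.)

Method.  `y = b c` with `p ^ e (z - x) = b ^ r`, `(z ^ p - x ^ p) / (z - x) = p ^ e c ^ r`, `e ≤ 1`. For given
`b`, `p`, `r` the numbers `c` lie in at most `(t + 1) / 2` residue classes modulo every prime `t` such that
`r` does not divide `t - 1`. For `r ≤ log N` the large sieve gives `O (√(N / b) log N)` numbers `c`. For larger
`r` the large sieve is applied to moduli composed of primes `t ≤ (log N) ^ 2` with the property that all prime
factors of `t - 1` are at most `log N`: there are many of them by the theorem of Bombieri and Vinogradov, and the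
residue classes depend only on the residues of `r` (and `p`, if `z = x + 1`) modulo the least common multiple
of the numbers `t - 1`, which is `N ^ o(1)`.
-/

set_option autoImplicit false

namespace Pool.Agent.Results.MP_509488_nt.DifferencePowerSaving

theorem result : ∀ η : ℝ, 0 < η → ∃ C : ℝ, ∀ N : ℕ, 1 ≤ N →
    (({y : ℕ | 0 < y ∧ y ≤ N ∧ ∃ x z p r : ℕ, 0 < x ∧ p.Prime ∧ r.Prime ∧ 3 ≤ p ∧ 5 ≤ r ∧
      Nat.Coprime x z ∧ x ^ p + y ^ r = z ^ p}.ncard : ℕ) : ℝ) ≤ C * (N : ℝ) ^ (5 / 6 + η : ℝ) :=
  fun _ hη => Pool.Agent.Helper20K9.FC.final_diff hη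

end Pool.Agent.Results.MP_509488_nt.DifferencePowerSaving
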