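import Mathlib
import Pool.Agent.Helper20K9.Two5

/-!
The Fermat-Catalan equation with two squares among the three powers, one of them a `2 m`-th power, `m ≥ 5`
prime: the base of the `2 m`-th power.

For every `η > 0` at most `C N ^ (5/6 + η)` numbers `x ≤ N` satisfy `x ^ (2 m) + y ^ r = z ^ 2` or
`z ^ 2 + y ^ r = x ^ (2 m)` for some odd `y`, some `z` prime to `x` and some primes `m ≥ 5`, `r ≥ 3`.  The
bases `y`, `z` and the exponents are not bounded in terms of `N`.

Method.  `2 x ^ m = v ^ r - w ^ r` with `|v w| = y`, and so `x = s n`, `r ^ e (v - w) = 2 s ^ m`,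
`(v ^ r - w ^ r) / (v - w) = r ^ e n ^ m`, `e ≤ 1`, `s ≤ (r N) ^ (1/3)`.  For given `s`, `r`, `m` the numbers `n`
lie in at most `(t + 1) / 2` residue classes modulo every prime `t` such that `m` does not divide `t - 1`.  For
`m ≤ log N` this gives `O (√(N / s) log N)` numbers `n`.  For larger `m` the large sieve is applied to
moduli composed of primes `t ≤ (log N) ^ 2` such that all prime factors of `t - 1` are at most `log N`; the
residue classes then depend only on the residue of `m` (and of `r`, if `v - w = 2`) modulo the least common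
multiple of the numbers `t - 1`, which is `N ^ o(1)`.
-/

set_option autoImplicit false

namespace Pool.Agent.Results.MP_509488_nt.EvenExponentBase

theorem result : ∀ η : ℝ, 0 < η → ∃ C : ℝ, ∀ N : ℕ, 1 ≤ N →
    (({x : ℕ | 0 < x ∧ x ≤ N ∧ ∃ y z m r : ℕ, m.Prime ∧ 5 ≤ m ∧ r.Prime ∧ 3 ≤ r ∧ Odd y ∧
      Nat.Coprime x z ∧ (x ^ (2 * m) + y ^ r = z ^ 2 ∨ z ^ 2 + y ^ r = x ^ (2 * m))}.ncard : ℕ) : ℝ) ≤
      C * (N : ℝ) ^ (5 / 6 + η : ℝ) :=
  fun _ hη => Pool.Agent.Helper20K9.TW.final_x hη

end Pool.Agent.Results.MP_509488_nt.EvenExponentBase
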