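import Mathlib
import Pool.Agent.Helper20K9.Fib3

/-!
# The Fermat-Catalan equation with one small base: power saving for the other base in short intervals

`Solves A B x y z C` says that `A ^ x + B ^ y = C ^ z` or `A ^ x + C ^ z = B ^ y` or `B ^ y + C ^ z = A ^ x` with
positive `x, y, C` and `z ≥ 2`.

There is an absolute `δ > 0` such that for every `K`, all large `N` and every interval `(b, b + N]` with
`b ≤ N ^ K`, at most `N ^ (1 - δ)` integers `B` of the interval have a solution with a base `A` coprime to `B`,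
`2 ≤ A ≤ N ^ δ`, any third base `C`, and exponents as follows: `y` is a prime (or at most
`exp ((log N) ^ (1/3))`, or the product of such a number and a prime), `x` and `z` are arbitrary, and
either `A B` has a prime factor at most `(log N) ^ K` or `min (x, y) ≤ exp ((log N) ^ K)`.

In particular, for each fixed base `A ≥ 2`, at most `N ^ (1 - δ)` of the integers `B` of every interval of
length `N` up to the height `N ^ K` occur as a base of a coprime solution with `A`, whatever the three prime
exponents and the third base are (the least prime factor of `A` is at most `(log N) ^ K` for large `N`).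

Proof. If one of the bases has a small prime factor, or one exponent is not too large, then linear forms in
logarithms show that `z` has a prime factor `q` at most a power of `log N`. For given `A`, `q` and given classes
of `x`, `y` modulo a number `lam` of size `exp ((log N) ^ (19/20))`, the large sieve is applied with primes
`t ≡ 1 mod q`, `t` about `exp (√(log N))`, such that `t - 1` divides `lam`; a supply of such primes comes from
Page's theorem and Linnik's method. The difficulty is that `B ^ y` may lie in a small subgroup modulo all these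
`t`: this happens only if the large prime factor of `y` divides `lam`, and for each of the few prime divisors
`r` of `lam` there is a second supply of primes `t` with `r ∤ t - 1`.
-/

set_option autoImplicit false

namespace Pool.Agent.Results.MP_509488_nt.SmallBasePowerSaving

/-- `(x, y, z, C)` is a solution with the bases `A` and `B` -/
def Solves (A B x y z C : ℕ) : Prop :=
  0 < x ∧ 0 < y ∧ 2 ≤ z ∧ 0 < C ∧
    (A ^ x + B ^ y = C ^ z ∨ A ^ x + C ^ z = B ^ y ∨ B ^ y + C ^ z = A ^ x)

/-- the exponent `y` of the large base is a prime, or a prime times a positive integer at most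
`exp ((log N) ^ (1/3))` -/
def Admissible (N y : ℕ) : Prop :=
  ∃ m p : ℕ, y = m * p ∧ p.Prime ∧ 0 < m ∧ (m : ℝ) ≤ Real.exp (Real.log N ^ (1 / 3 : ℝ))

/-- the bases `B` in `(b, b + N]` with a solution for some small base `A ≥ 2` coprime to `B` -/
def Exceptional (δ : ℝ) (K N b : ℕ) : Set ℕ :=
  {B | (b < B ∧ B ≤ b + N) ∧ ∃ A x y z C : ℕ, 2 ≤ A ∧ (A : ℝ) ≤ (N : ℝ) ^ δ ∧ Nat.Coprime A B ∧
    Solves A B x y z C ∧ Admissible N y ∧
    ((∃ l : ℕ, l.Prime ∧ (l : ℝ) ≤ Real.log N ^ K ∧ l ∣ A * B) ∨
      ((min x y : ℕ) : ℝ) ≤ Real.exp (Real.log N ^ K))}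

theorem result : ∃ δ : ℝ, 0 < δ ∧ ∀ K : ℕ, ∃ N₀ : ℕ, ∀ N : ℕ, N₀ ≤ N → ∀ b : ℕ, b ≤ N ^ K →
    ((Exceptional δ K N b).ncard : ℝ) ≤ (N : ℝ) ^ (1 - δ) := by
  obtain ⟨δ, hδ, h⟩ := Pool.Agent.Helper20K9.FC.fib_main
  refine ⟨δ, hδ, fun K => ?_⟩
  obtain ⟨N₀, g⟩ := h K
  refine ⟨N₀, fun N hN b hb => ?_⟩
  refine le_trans (le_of_eq ?_) (g N hN b hb)
  congr 2
  ext B
  constructor
  · rintro ⟨h1, A, x, y, z, C, h2, h3, h4, ⟨h5, h6, h7, h8, h9⟩, h10, h11⟩
    exact ⟨h1, A, x, y, z, C, h2, h3, h4, h5, h10, h7, h8, h9, h11⟩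
  · rintro ⟨h1, A, x, y, z, C, h2, h3, h4, h5, h10, h7, h8, h9, h11⟩
    obtain ⟨m, p, hy, hp, hm, hm'⟩ := h10
    exact ⟨h1, A, x, y, z, C, h2, h3, h4,
      ⟨h5, by rw [hy]; exact Nat.mul_pos hm hp.pos, h7, h8, h9⟩, ⟨m, p, hy, hp, hm, hm'⟩, h11⟩

end Pool.Agent.Results.MP_509488_nt.SmallBasePowerSaving
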