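import Mathlib
import Pool.Agent.Helper20K9.Two3

/-!
The Fermat-Catalan equation with two squares among the three powers, one of them a `2 m`-th power, `m ≥ 3`:
`x ^ (2 m) + y ^ r = z ^ 2`, `z ^ 2 + y ^ r = x ^ (2 m)` and `x ^ (2 m) + z ^ 2 = y ^ r`, all exponents and
the bases `x`, `z` free.

For every `N` at most `18 N ^ (3/4)` odd numbers `y ≤ N` occur.  (In the third equation `y` is always odd.)

Method.  In the first two equations `y = u v` with `z + x ^ m = v ^ r`, `|z - x ^ m| = u ^ r`, and then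
`v ^ r - (± u) ^ r = 2 x ^ m` implies that `(v ∓ u) / 2` is a squarefull number.  In the third equation
`y = a ^ 2 + b ^ 2` with `x ^ m + i z = (a + b i) ^ r`, and `a` is squarefull.
-/

set_option autoImplicit false

namespace Pool.Agent.Results.MP_509488_nt.TwoSquaresPowerSaving

theorem result : ∀ N : ℕ,
    (({y : ℕ | Odd y ∧ y ≤ N ∧ ∃ x z m r : ℕ, 0 < x ∧ 3 ≤ m ∧ r.Prime ∧ 3 ≤ r ∧ Nat.Coprime x z ∧
      (x ^ (2 * m) + y ^ r = z ^ 2 ∨ z ^ 2 + y ^ r = x ^ (2 * m) ∨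
        x ^ (2 * m) + z ^ 2 = y ^ r)}.ncard : ℕ) : ℝ) ≤ 18 * (N : ℝ) ^ (3 / 4 : ℝ) :=
  fun N => Pool.Agent.Helper20K9.TW.main_y N

end Pool.Agent.Results.MP_509488_nt.TwoSquaresPowerSaving
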